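import Pool.Agent.helper34.AC.Spec2

/-!
# GPS (project ac:)
-/

set_option autoImplicit false

namespace Pool.Agent.helper34.AC

theorem GPS (hWEX : WEX_stmt) (hBLO : BLO_stmt) : GPS_stmt := by
  intro n
  obtain ⟨h1, h2⟩ := hBLO n
  by_contra hlt
  push Not at hlt
  have hn : (0 : ℝ) ≤ (n : ℝ) := Nat.cast_nonneg n
  have hW := hWEX.1 (n : ℝ) hn
  have hlog : Real.log (psi n) = W n := by rw [psi, Real.log_exp]
  have hmul : psi n * Real.log (psi n) = n := by rw [hlog, mul_comm]; exact hW.2
  have hp1 : 1 < psi n := lt_of_le_of_lt h1 hlt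
  have hlp : 0 < Real.log (psi n) := Real.log_pos hp1
  have hg0 : 0 < gb n := lt_of_lt_of_le one_pos h1
  have hle : Real.log (gb n) ≤ Real.log (psi n) := Real.log_le_log hg0 hlt.le
  have h3 : gb n * Real.log (gb n) ≤ gb n * Real.log (psi n) := mul_le_mul_of_nonneg_left hle hg0.le
  have h4 : gb n * Real.log (psi n) < psi n * Real.log (psi n) := mul_lt_mul_of_pos_right hlt hlp
  linarith

end Pool.Agent.helper34.AC
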